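import Pool.Agent.E8helper80.BF.Bes

/-!
# Binary forms `F L` with a linear factor `L`: boundedly many exceptional `L` for every `F`

Let `F` be an arbitrary binary form (of any degree, or any function `ℤ² → ℤ`). At every scale `X` the sum of
`λ(F(P) L(P))` over any set of points of the square `|P| ≤ X` is at most `ε (2 X + 1)²` for all primitive integer linear
forms `L`, up to sign, with coefficients at most `(log X) ^ A`, with at most `ε⁻² (1 + (log X) ^ (-B))` exceptions.
With the error `X² / (log X) ^ B`, uniformly in all the translated lattices of modulus at most `(log X) ^ κ`, there are at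
most `(log X) ^ (3 κ + 3 B + 1)` exceptions, while there are about `(log X) ^ (2 A)` linear forms, `A` arbitrary.

The proof: the functions `λ(L(P))` are nearly orthogonal to each other, with a power of the logarithm saving (the
Liouville function in arithmetic progressions on the lines `L(P) = m`), and Bessel's inequality.
-/

set_option autoImplicit false

namespace Pool.Agent.Results.MP_d639b3_nt.BoundedExceptionsH80

open Finset

/-- Liouville's function on the integers: `(-1) ^ Ω(|m|)`, and `0` at `0` (as if `0` were omitted). -/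
def lam (m : ℤ) : ℤ := if m = 0 then 0 else (-1) ^ ArithmeticFunction.cardFactors m.natAbs

/-- The integer points of the square: `|u| ≤ X`, `|v| ≤ X`. -/
noncomputable def square (X : ℕ) : Finset (ℤ × ℤ) := Icc (-(X : ℤ)) X ×ˢ Icc (-(X : ℤ)) X

/-- The points of the translated lattice `u ≡ r`, `v ≡ s` modulo `N` in the square `|u| ≤ Y`, `|v| ≤ Y`. -/
noncomputable def lattice (Y N : ℕ) (r s : ℤ) : Finset (ℤ × ℤ) :=
  (square Y).filter (fun P => P.1 ≡ r [ZMOD N] ∧ P.2 ≡ s [ZMOD N])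

/-- The value `a u + b v` of the linear form `L = (a, b)` at `P = (u, v)`. -/
def form (L P : ℤ × ℤ) : ℤ := L.1 * P.1 + L.2 * P.2

/-- The sum of `λ(g(P) L(P))` over the points `P` of the finite set `R`. -/
noncomputable def S (g : ℤ × ℤ → ℤ) (L : ℤ × ℤ) (R : Finset (ℤ × ℤ)) : ℤ := ∑ P ∈ R, lam (g P * form L P)

open Classical in
/-- Let `A`, `B`, `κ` be fixed and let `X` be large. Let `g : ℤ² → ℤ` be an arbitrary function, for example a binary form
of any degree, and let `𝓛` be a set of integer linear forms, no two of which are proportional, with coefficients at most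
`(log X) ^ A` in absolute value; for example all the primitive ones up to sign.

* For every set `R` of points of the square `|P| ≤ X` and every `ε > 0` the number of the `L ∈ 𝓛` with
  `|∑ λ(g(P) L(P))| > ε (2 X + 1) ^ 2`, the sum over `P ∈ R`, is at most `(1 + (log X) ^ (-B)) / ε ^ 2`.
* For all the `L ∈ 𝓛` with at most `(log X) ^ (3 κ + 3 B + 1)` exceptions, `|∑ λ(g(P) L(P))| ≤ X ^ 2 / (log X) ^ B`, the
  sum over the points `P`, `|P| ≤ Y`, of a translated lattice of modulus `N`, for all `Y ≤ X`, all `N ≤ (log X) ^ κ` and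
  all translates. -/
theorem result (A B κ : ℕ) : ∃ X₀ : ℕ, ∀ X : ℕ, X₀ ≤ X → ∀ g : ℤ × ℤ → ℤ, ∀ 𝓛 : Finset (ℤ × ℤ),
    (∀ L ∈ 𝓛, (|L.1| : ℝ) ≤ Real.log X ^ A ∧ (|L.2| : ℝ) ≤ Real.log X ^ A) →
    (∀ L ∈ 𝓛, ∀ L' ∈ 𝓛, L ≠ L' → L.1 * L'.2 ≠ L'.1 * L.2) →
    (∀ R ⊆ square X, ∀ ε : ℝ, 0 < ε →
      ((𝓛.filter (fun L => ε * (2 * X + 1) ^ 2 < |(S g L R : ℝ)|)).card : ℝ) * ε ^ 2 ≤ 1 + 1 / Real.log X ^ B) ∧
    ((𝓛.filter (fun L => ∃ N : ℕ, (1 ≤ N ∧ (N : ℝ) ≤ Real.log X ^ κ) ∧ ∃ (r s : ℤ) (Y : ℕ), Y ≤ X ∧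
      (X : ℝ) ^ 2 / Real.log X ^ B < |(S g L (lattice Y N r s) : ℝ)|)).card : ℝ) ≤
      Real.log X ^ (3 * κ + 3 * B + 1) := by
  obtain ⟨X₁, h1⟩ := Pool.Agent.E8helper80.BF.few A B
  obtain ⟨X₂, h2⟩ := Pool.Agent.E8helper80.BF.unif A B κ
  refine ⟨X₁ + X₂, fun X hX g 𝓛 h𝓛 hind => ⟨?_, ?_⟩⟩
  · intro R hR ε hε
    exact (h1 X (by omega)).2 g 𝓛 h𝓛 hind R hR ε hε
  · exact h2 X (by omega) g 𝓛 h𝓛 hind

end Pool.Agent.Results.MP_d639b3_nt.BoundedExceptionsH80
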