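import Pool.Agent.E8helper80.MQ.Fin

/-!
# The Liouville function at the values of `g(T) Q(T + h)`, `Q` a reducible quadratic polynomial, `h` a polynomial value

`Q(T) = (α T + a) (β T + b)` is an arbitrary product of two linear polynomials with integer coefficients and nonzero
discriminant, and `g` is an arbitrary polynomial, or function. At almost all scales `N` (outside a set of logarithmic
density zero, which does not depend on `Q`, `g`, `P`) the sums of `λ(g(v) Q(v + h))` over the `v` in progressions,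
`|v| ≤ X ≤ N`, are `o(N)` for almost all shifts of the form `h = c + P(m)`, for every nonconstant polynomial `P` (for
`P = T ^ d` there are about `N ^ (1 / d)` such shifts).
-/

set_option autoImplicit false

namespace Pool.Agent.Results.MP_d639b3_nt.MovingQuadraticsH80

open Finset

/-- Liouville's function on the integers: `(-1) ^ Ω(|m|)`, and `0` at `0` (as if `0` were omitted). -/
def lam (m : ℤ) : ℤ := if m = 0 then 0 else (-1) ^ ArithmeticFunction.cardFactors m.natAbs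

open Classical in
/-- The set `𝓔` has logarithmic density zero. -/
def LogDensityZero (𝓔 : Set ℕ) : Prop :=
  Filter.Tendsto (fun X : ℕ => (∑ n ∈ Icc 1 X, if n ∈ 𝓔 then (1 : ℝ) / n else 0) / Real.log X) Filter.atTop (nhds 0)

/-- The sum of `λ (F v)` over the `v` with `|v| ≤ X` and `v ≡ r mod q`. -/
noncomputable def progSum (F : ℤ → ℤ) (q : ℕ) (r : ℤ) (X : ℕ) : ℤ :=
  ∑ v ∈ (Icc (-(X : ℤ)) X).filter (fun v => v ≡ r [ZMOD q]), lam (F v)

open Classical in
/-- There is a set `𝓔` of logarithmic density zero with the following property. Let `Q(T) = (α T + a) (β T + b)` with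
integers `α, β ≠ 0` and `α b ≠ β a`, let `P` be a nonconstant polynomial with integer coefficients, of degree `d`, and let
`B` and `ε > 0` be fixed. Let `N ∉ 𝓔` be large, let `g : ℤ → ℤ` be an arbitrary function (for example a polynomial of any
degree), `|c| ≤ B N` and `N / B ≤ x ^ d ≤ B N`. Then for all but `ε x` of the `m ≤ x` the shift `h = c + P(m)` satisfies
`|∑ λ(g(v) Q(v + h))| ≤ ε N`, the sum over the `v ≡ r mod q` with `|v| ≤ X`, for all `q ≤ B`, all `r` and all `X ≤ N`. -/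
theorem result : ∃ 𝓔 : Set ℕ, LogDensityZero 𝓔 ∧
    ∀ α β a b : ℤ, α ≠ 0 → β ≠ 0 → α * b ≠ β * a → ∀ P : Polynomial ℤ, 1 ≤ P.natDegree →
    ∀ (B : ℕ) (ε : ℝ), 0 < ε → ∃ N₀ : ℕ, ∀ N : ℕ, N₀ ≤ N → N ∉ 𝓔 →
    ∀ g : ℤ → ℤ, ∀ c : ℤ, |c| ≤ B * N → ∀ x : ℕ, N ≤ B * x ^ P.natDegree → x ^ P.natDegree ≤ B * N →
      (((Icc 1 x).filter (fun m : ℕ => ∃ q : ℕ, (1 ≤ q ∧ q ≤ B) ∧ ∃ (r : ℤ) (X : ℕ), X ≤ N ∧ ε * N <
        |(progSum (fun v => g v * ((α * (v + (c + P.eval (m : ℤ))) + a) * (β * (v + (c + P.eval (m : ℤ))) + b)))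
          q r X : ℝ)|)).card : ℝ) ≤ ε * x := by
  obtain ⟨F, hF, h⟩ := Pool.Agent.E8helper80.MQ.polyQ
  refine ⟨F, hF, fun α β a b hα hβ hab P hP B ε hε => ?_⟩
  -- signs
  have key : ∀ α a : ℤ, α ≠ 0 → ∃ σ : ℤ, (σ = 1 ∨ σ = -1) ∧ α = σ * (α.natAbs : ℤ) ∧ 1 ≤ α.natAbs := by
    intro α a h0
    rcases lt_or_gt_of_ne h0 with h1 | h1
    · exact ⟨-1, Or.inr rfl, by omega, by omega⟩
    · exact ⟨1, Or.inl rfl, by omega, by omega⟩
  obtain ⟨σ, hσ, hσα, hα1⟩ := key α a hα
  obtain ⟨τ, hτ, hτβ, hβ1⟩ := key β b hβ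
  have hσ2 : σ * σ = 1 := by rcases hσ with h | h <;> rw [h] <;> norm_num
  have hτ2 : τ * τ = 1 := by rcases hτ with h | h <;> rw [h] <;> norm_num
  obtain ⟨N₀, h1⟩ := h α.natAbs β.natAbs (σ * a) (τ * b) hα1 hβ1 (by
    intro h2
    apply hab
    calc α * b = σ * τ * ((α.natAbs : ℤ) * (τ * b)) := by
          rw [show σ * τ * ((α.natAbs : ℤ) * (τ * b)) = (σ * (α.natAbs : ℤ)) * b * (τ * τ) by ring, hτ2, ← hσα, mul_one]
      _ = σ * τ * ((β.natAbs : ℤ) * (σ * a)) := by rw [h2]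
      _ = β * a := by
          rw [show σ * τ * ((β.natAbs : ℤ) * (σ * a)) = (τ * (β.natAbs : ℤ)) * a * (σ * σ) by ring, hσ2, ← hτβ, mul_one])
    P hP B ε hε
  refine ⟨N₀, fun N hN hNF g c hc x hx1 hx2 => ?_⟩
  refine le_trans (le_of_eq ?_) (h1 N hN hNF x hx1 hx2 c hc (fun v => Pool.Agent.E8helper80.MQ.lamZ (g v))
    (fun v => Pool.Agent.E8helper80.MQ.lamZ_norm _))
  congr 2
  apply filter_congr
  intro m _
  have h3 : ∀ (q : ℕ) (r : ℤ) (X : ℕ),
      |(progSum (fun v => g v * ((α * (v + (c + P.eval (m : ℤ))) + a) * (β * (v + (c + P.eval (m : ℤ))) + b)))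
          q r X : ℝ)| = ‖∑ v ∈ (Icc (-(X : ℤ)) X).filter (fun v => v ≡ r [ZMOD q]),
        Pool.Agent.E8helper80.MQ.lamZ (g v) *
          Pool.Agent.E8helper80.MQ.qv α.natAbs β.natAbs (σ * a) (τ * b) (v + (c + P.eval (m : ℤ)))‖ := by
    intro q r X
    have h4 : ∀ v : ℤ, Pool.Agent.E8helper80.MQ.lamZ (g v) *
          Pool.Agent.E8helper80.MQ.qv α.natAbs β.natAbs (σ * a) (τ * b) (v + (c + P.eval (m : ℤ))) =
        ((lam (g v * ((α * (v + (c + P.eval (m : ℤ))) + a) * (β * (v + (c + P.eval (m : ℤ))) + b))) : ℤ) : ℂ) := by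
      intro v
      have h5 : ∀ n : ℤ, ((lam n : ℤ) : ℂ) = Pool.Agent.E8helper80.MQ.lamZ n := by
        intro n
        unfold lam Pool.Agent.E8helper80.MQ.lamZ
        split_ifs <;> simp
      rw [h5]
      unfold Pool.Agent.E8helper80.MQ.qv
      rw [← Pool.Agent.E8helper80.MQ.lamZ_mul]
      have h6 : ∀ k : ℤ, g v * (((α.natAbs : ℤ) * k + σ * a) * ((β.natAbs : ℤ) * k + τ * b)) =
          (σ * τ) * (g v * ((α * k + a) * (β * k + b))) := by
        intro k
        have e1 : (α.natAbs : ℤ) * k + σ * a = σ * (α * k + a) := by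
          conv_rhs => rw [hσα]
          rw [show σ * (σ * (α.natAbs : ℤ) * k + a) = (σ * σ) * (α.natAbs : ℤ) * k + σ * a by ring, hσ2, one_mul]
        have e2 : (β.natAbs : ℤ) * k + τ * b = τ * (β * k + b) := by
          conv_rhs => rw [hτβ]
          rw [show τ * (τ * (β.natAbs : ℤ) * k + b) = (τ * τ) * (β.natAbs : ℤ) * k + τ * b by ring, hτ2, one_mul]
        rw [e1, e2]
        ring
      rw [h6]
      rcases hσ with h7 | h7 <;> rcases hτ with h8 | h8 <;> rw [h7, h8]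
      · rw [one_mul, one_mul]
      · rw [one_mul, neg_one_mul, Pool.Agent.E8helper80.MQ.lamZ_neg]
      · rw [mul_one, neg_one_mul, Pool.Agent.E8helper80.MQ.lamZ_neg]
      · rw [neg_mul_neg, one_mul, one_mul]
    unfold progSum
    simp only [h4]
    rw [← Int.cast_sum, Complex.norm_intCast]
  simp only [h3]

end Pool.Agent.Results.MP_d639b3_nt.MovingQuadraticsH80
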