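import Pool.Agent.E8helper83.WS.Split

/-!
# The Liouville function at the values of polynomials with rational roots, at every scale

The cube argument of the starting files (`Pool.Agent.Y958.U`, helper958), which bounds these sums at almost all scales, is
carried out here in a windowed form: below every large `M` there is a good scale `M / p` with `p` bounded. So the natural
averages stay away from the trivial bound at EVERY scale.
-/

set_option autoImplicit false

namespace Pool.Agent.Results.MP_d639b3_nt.RationalRootsEveryScaleH83

open Finset Polynomial

/-- the Liouville function on the integers: `λ(m) = (-1)^Ω(|m|)`, and `0` at `0` -/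
noncomputable def lam (m : ℤ) : ℝ := if m = 0 then 0 else (-1) ^ ArithmeticFunction.cardFactors m.natAbs

/-- the points `v` of the progression `r` modulo `q` with `|v| ≤ N` -/
noncomputable def prog (q : ℕ) (r : ℤ) (N : ℕ) : Finset ℤ := (Icc (-(N : ℤ)) N).filter (fun v => v ≡ r [ZMOD q])

/-- Let `f` be a nonconstant polynomial with integer coefficients all the roots of which are rational and simple, that
is, `f` splits and is squarefree over `ℚ`, and let `r` modulo `q` be an arithmetic progression. There is `c > 0` such that
for ALL large `N` the sum of `λ(f(v))` over the `v` in the progression with `|v| ≤ N` is at most `(1 - c)` times the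
number of these `v`, in absolute value. -/
theorem result (f : ℤ[X]) (hdeg : 1 ≤ f.natDegree) (hs : (f.map (Int.castRingHom ℚ)).Splits)
    (hsq : Squarefree (f.map (Int.castRingHom ℚ))) (q : ℕ) (hq : 1 ≤ q) (r : ℤ) :
    ∃ (c : ℝ) (N₀ : ℕ), 0 < c ∧ ∀ N : ℕ, N₀ ≤ N →
      |∑ v ∈ prog q r N, lam (f.eval v)| ≤ (1 - c) * (prog q r N).card :=
  Pool.Agent.E8helper83.WS.split_final f hdeg hs hsq q hq r

end Pool.Agent.Results.MP_d639b3_nt.RationalRootsEveryScaleH83
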