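import Pool.Agent.H661R3.OP.Final

set_option autoImplicit false

/-!
# Completely split polynomials of odd degree: both signs of the Liouville function at values with a
# bounded number of prime factors, in every progression

The theorem on rough values of systems of linear forms (an odd number of them) is from the starting
files (`Pool.Agent.H661R3.OP`). From Mathlib: `ArithmeticFunction.cardFactors n`: the number of the
prime factors of `n` with multiplicity.
-/

namespace Pool.Agent.Results.MP_d639b3_nt.SplitOddDegreeH28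

open Finset Filter

/-- the Liouville function of a nonzero integer (`1` at `0`) -/
def liouville (n : ℤ) : ℤ := (-1) ^ ArithmeticFunction.cardFactors n.natAbs

private lemma card_mul {x y : ℤ} (hx : x ≠ 0) (hy : y ≠ 0) :
    ArithmeticFunction.cardFactors (x * y).natAbs =
      ArithmeticFunction.cardFactors x.natAbs + ArithmeticFunction.cardFactors y.natAbs := by
  rw [Int.natAbs_mul, ArithmeticFunction.cardFactors_mul (Int.natAbs_ne_zero.2 hx)
    (Int.natAbs_ne_zero.2 hy)]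

private lemma card_prod {ι : Type} (s : Finset ι) (g : ι → ℤ) (h : ∀ i ∈ s, g i ≠ 0) :
    ArithmeticFunction.cardFactors (∏ i ∈ s, g i).natAbs =
      ∑ i ∈ s, ArithmeticFunction.cardFactors (g i).natAbs := by
  classical
  induction s using Finset.induction_on with
  | empty => simp
  | insert a s ha ih =>
    rw [prod_insert ha, sum_insert ha, card_mul (h a (mem_insert_self a s))
      (prod_ne_zero_iff.2 fun i hi => h i (mem_insert_of_mem hi)),
      ih fun i hi => h i (mem_insert_of_mem hi)]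

/-- the forms `m ↦ A i m + 1` with `a i (v₀ + Q m) + b i = c i (A i m + 1)` -/
private lemma forms {ι : Type} [Fintype ι] (a b : ι → ℤ) (ha : ∀ i, a i ≠ 0)
    (hab : ∀ i j, i ≠ j → a i * b j ≠ a j * b i) (r : ℤ) (M : ℕ) (hM : 1 ≤ M) :
    ∃ (v₀ : ℤ) (Q : ℕ) (c A : ι → ℤ), 0 < v₀ ∧ v₀ ≡ r [ZMOD M] ∧ 1 ≤ Q ∧ (M : ℤ) ∣ Q ∧
      (∀ i, c i ≠ 0) ∧ (∀ i, 0 < A i) ∧ (∀ i j, i ≠ j → A i ≠ A j) ∧
      ∀ i, ∀ m : ℤ, a i * (v₀ + Q * m) + b i = c i * (A i * m + 1) := by
  classical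
  obtain ⟨B, hB⟩ : ∃ B : ℤ, B = |r| + ∑ i, |b i| + 1 := ⟨_, rfl⟩
  have hsum0 : 0 ≤ ∑ i, |b i| := sum_nonneg fun i _ => abs_nonneg _
  have hB1 : 1 ≤ B := by
    have := abs_nonneg r
    omega
  have hMz : (1 : ℤ) ≤ M := by exact_mod_cast hM
  obtain ⟨v₀, hv⟩ : ∃ v : ℤ, v = r + M * B := ⟨_, rfl⟩
  have hvb : ∀ i, |b i| < v₀ := by
    intro i
    have h1 : |b i| ≤ ∑ j, |b j| := single_le_sum (f := fun j => |b j|) (fun j _ => abs_nonneg _)
      (mem_univ i)
    have h2 : B ≤ M * B := by nlinarith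
    have h3 := neg_abs_le r
    rw [hv]
    linarith
  have hv0 : 0 < v₀ := by
    have h2 : B ≤ M * B := by nlinarith
    have h3 := neg_abs_le r
    rw [hv]
    linarith
  obtain ⟨c, hc⟩ : ∃ c : ι → ℤ, c = fun i => a i * v₀ + b i := ⟨_, rfl⟩
  have hac : ∀ i, 0 < a i * c i := by
    intro i
    rw [hc]
    show 0 < a i * (a i * v₀ + b i)
    have h1 : 1 ≤ |a i| := Int.one_le_abs (ha i)
    have h2 : a i * a i = |a i| * |a i| := (abs_mul_abs_self _).symm
    have h3 : -(|a i| * |b i|) ≤ a i * b i := by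
      rw [← abs_mul]
      exact neg_abs_le _
    have h4 := hvb i
    have h5 := abs_nonneg (b i)
    have h6 : a i * (a i * v₀ + b i) = |a i| * |a i| * v₀ + a i * b i := by
      rw [← h2]; ring
    rw [h6]
    have h7 : |a i| * |b i| < |a i| * v₀ := by nlinarith
    have h8 : |a i| * v₀ ≤ |a i| * |a i| * v₀ := by
      have h9 : 1 * (|a i| * v₀) ≤ |a i| * (|a i| * v₀) :=
        mul_le_mul_of_nonneg_right h1 (by positivity)
      linarith
    linarith
  have hc0 : ∀ i, c i ≠ 0 := fun i h => by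
    have := hac i
    rw [h, mul_zero] at this
    exact lt_irrefl _ this
  obtain ⟨Q, hQ⟩ : ∃ Q : ℕ, Q = M * ∏ i, (c i).natAbs := ⟨_, rfl⟩
  have hQ1 : 1 ≤ Q := by
    rw [hQ]
    exact Nat.mul_pos hM (prod_pos fun i _ => Int.natAbs_pos.2 (hc0 i))
  have hcQ : ∀ i, c i ∣ (Q : ℤ) := by
    intro i
    rw [← Int.natAbs_dvd, Int.natCast_dvd_natCast, hQ]
    exact (dvd_prod_of_mem (fun i => (c i).natAbs) (mem_univ i)).mul_left M
  choose e he using hcQ
  refine ⟨v₀, Q, c, fun i => a i * e i, hv0, ?_, hQ1, ?_, hc0, ?_, ?_, ?_⟩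
  · rw [hv]
    exact (Int.modEq_iff_dvd.2 ⟨-B, by ring⟩)
  · rw [hQ]
    push_cast
    exact Dvd.intro _ rfl
  · intro i
    have h1 : (0 : ℤ) < Q := by exact_mod_cast hQ1
    have h2 := hac i
    have h3 := he i
    have h4 : 0 < (a i * c i) * (c i * e i) := by rw [← h3]; positivity
    have h5 : (a i * c i) * (c i * e i) = (c i * c i) * (a i * e i) := by ring
    rw [h5] at h4
    exact pos_of_mul_pos_right h4 (mul_self_nonneg _)
  · intro i j hij h
    apply hab i j hij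
    have h1 : (0 : ℤ) < Q := by exact_mod_cast hQ1
    have h2 : (Q : ℤ) * (a i * c j) = Q * (a j * c i) := by
      calc (Q : ℤ) * (a i * c j) = (c i * e i) * (a i * c j) := by rw [← he i]
        _ = c i * c j * (a i * e i) := by ring
        _ = c i * c j * (a j * e j) := by rw [show a i * e i = a j * e j from h]
        _ = (c j * e j) * (a j * c i) := by ring
        _ = Q * (a j * c i) := by rw [← he j]
    have h3 := mul_left_cancel₀ h1.ne' h2
    rw [hc] at h3
    simp only at h3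
    linarith
  · intro i m
    have h1 := he i
    calc a i * (v₀ + Q * m) + b i = a i * (v₀ + c i * e i * m) + b i := by rw [← h1]
      _ = (a i * v₀ + b i) + c i * (a i * e i) * m := by ring
      _ = c i + c i * (a i * e i) * m := by rw [hc]
      _ = c i * (a i * e i * m + 1) := by ring

/-- **Both signs at almost prime values.** Let `f(v) = c ∏ (a i v + b i)` with an ODD number of
pairwise non-proportional linear factors (`c ≠ 0`, all `a i ≠ 0`), let `r + M ℤ` be a progression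
(`M ≥ 1`) and `ε > 0`. There is `R` such that for all large `X` and both signs `s` there are at least
`X ^ (1 - ε)` integers `v ≡ r (mod M)`, `0 < v ≤ X`, such that `f(v) ≠ 0` has at most `R` prime
factors and `λ(f(v)) = s`. -/
theorem result (ι : Type) [Fintype ι] (hodd : Odd (Fintype.card ι)) (c : ℤ) (hc : c ≠ 0)
    (a b : ι → ℤ) (ha : ∀ i, a i ≠ 0) (hab : ∀ i j, i ≠ j → a i * b j ≠ a j * b i)
    (r : ℤ) (M : ℕ) (hM : 1 ≤ M) (ε : ℝ) (hε : 0 < ε) :
    ∃ (R : ℕ) (X₀ : ℝ), ∀ X : ℝ, X₀ ≤ X → ∀ s : ℤ, s = 1 ∨ s = -1 →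
      X ^ (1 - ε) ≤ ({v : ℤ | 0 < v ∧ (v : ℝ) ≤ X ∧ v ≡ r [ZMOD M] ∧
        c * ∏ i, (a i * v + b i) ≠ 0 ∧
        ArithmeticFunction.cardFactors (c * ∏ i, (a i * v + b i)).natAbs ≤ R ∧
        liouville (c * ∏ i, (a i * v + b i)) = s}.ncard : ℝ) := by
  classical
  obtain ⟨v₀, Q, d, A, hv0, hvr, hQ, hMQ, hd, hA, hAinj, hfac⟩ := forms a b ha hab r M hM
  obtain ⟨R, δ, hδ, y₀, h⟩ := Pool.Agent.H661R3.OP.both Pool.Agent.H661R3.OP.liou ι A
    (fun _ => 1) univ hA (fun i j hij h0 => hAinj i j hij (by linarith)) (by rwa [card_univ])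
    (fun p hp => ⟨0, fun i hd => by
      rw [mul_zero, zero_add] at hd
      have : (p : ℤ) = 1 := Int.eq_one_of_dvd_one (by positivity) hd
      exact hp.one_lt.ne' (by exact_mod_cast this)⟩) (ε / 2) (by linarith)
  -- the constant part
  obtain ⟨K, hK⟩ : ∃ K : ℤ, K = c * ∏ i, d i := ⟨_, rfl⟩
  have hK0 : K ≠ 0 := by
    rw [hK]
    exact mul_ne_zero hc (prod_ne_zero_iff.2 fun i _ => hd i)
  have hval : ∀ m : ℤ, c * ∏ i, (a i * (v₀ + Q * m) + b i) = K * ∏ i, (A i * m + 1) := by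
    intro m
    rw [prod_congr rfl fun i _ => hfac i m, prod_mul_distrib, hK, mul_assoc]
  refine ⟨ArithmeticFunction.cardFactors K.natAbs + Fintype.card ι * R, ?_⟩
  obtain ⟨w, hw⟩ : ∃ w : ℝ, w = (Q : ℝ) + v₀ := ⟨_, rfl⟩
  have hQr : (1 : ℝ) ≤ Q := by exact_mod_cast hQ
  have hvr0 : (1 : ℝ) ≤ v₀ := by exact_mod_cast hv0
  have hw0 : 0 < w := by rw [hw]; linarith
  have hev : ∀ᶠ x : ℝ in atTop, y₀ ≤ x / w ∧ x ^ (1 - ε) ≤ (x / w) ^ (1 - ε / 2) := by
    have t1 : Tendsto (fun x : ℝ => x / w) atTop atTop := tendsto_id.atTop_div_const hw0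
    have t2 : Tendsto (fun x : ℝ => x ^ (ε / 2)) atTop atTop :=
      tendsto_rpow_atTop (by linarith)
    filter_upwards [t1.eventually_ge_atTop y₀, t2.eventually_ge_atTop (w ^ (1 - ε / 2)),
      eventually_gt_atTop 0] with x h1 h3 hx
    refine ⟨h1, ?_⟩
    rw [Real.div_rpow hx.le hw0.le, le_div_iff₀ (Real.rpow_pos_of_pos hw0 _)]
    calc x ^ (1 - ε) * w ^ (1 - ε / 2) ≤ x ^ (1 - ε) * x ^ (ε / 2) :=
          mul_le_mul_of_nonneg_left h3 (Real.rpow_nonneg hx.le _)
      _ = x ^ (1 - ε / 2) := by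
          rw [← Real.rpow_add hx]
          congr 1
          ring
  obtain ⟨X₀, hX₀⟩ := eventually_atTop.1 hev
  refine ⟨X₀, fun X hX s hs => ?_⟩
  obtain ⟨h1, h3⟩ := hX₀ X hX
  obtain ⟨hO, hE⟩ := h (X / w) h1
  obtain ⟨T, hT⟩ : ∃ T : Set ℤ, T = {v : ℤ | 0 < v ∧ (v : ℝ) ≤ X ∧ v ≡ r [ZMOD M] ∧
        c * ∏ i, (a i * v + b i) ≠ 0 ∧
        ArithmeticFunction.cardFactors (c * ∏ i, (a i * v + b i)).natAbs ≤
          ArithmeticFunction.cardFactors K.natAbs + Fintype.card ι * R ∧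
        liouville (c * ∏ i, (a i * v + b i)) = s} := ⟨_, rfl⟩
  rw [← hT]
  have hTfin : T.Finite := by
    apply (Set.finite_Icc (0 : ℤ) ⌊X⌋).subset
    intro v hv
    rw [hT] at hv
    exact ⟨hv.1.le, Int.le_floor.2 hv.2.1⟩
  have step : ∀ B : Set ℕ, (∀ m ∈ B, 0 < m ∧ (m : ℝ) ≤ X / w ∧
      (∀ i, 0 < A i * m + 1 ∧ ArithmeticFunction.cardFactors (A i * m + 1).natAbs ≤ R) ∧
      (-1) ^ ArithmeticFunction.cardFactors K.natAbs *
        (-1) ^ (∑ i, ArithmeticFunction.cardFactors (A i * m + 1).natAbs) = s) →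
      (X / w) ^ (1 - ε / 2) ≤ (B.ncard : ℝ) → X ^ (1 - ε) ≤ (T.ncard : ℝ) := by
    intro B hB hcard
    refine h3.trans (hcard.trans ?_)
    have hinj : Function.Injective (fun m : ℕ => v₀ + (Q : ℤ) * m) := by
      intro x y hxy
      have h5 : (Q : ℤ) * x = Q * y := by
        have : v₀ + (Q : ℤ) * x = v₀ + Q * y := hxy
        linarith
      have h6 : (Q : ℤ) ≠ 0 := by
        have : (0 : ℤ) < Q := by exact_mod_cast hQ
        exact this.ne'
      exact_mod_cast mul_left_cancel₀ h6 h5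
    have himg : (fun m : ℕ => v₀ + (Q : ℤ) * m) '' B ⊆ T := by
      rintro _ ⟨m, hm, rfl⟩
      obtain ⟨hm0, hmx, hmi, hms⟩ := hB m hm
      have hne : ∀ i ∈ (univ : Finset ι), A i * (m : ℤ) + 1 ≠ 0 := fun i _ => (hmi i).1.ne'
      have hcf : ArithmeticFunction.cardFactors (c * ∏ i, (a i * (v₀ + Q * (m : ℤ)) + b i)).natAbs =
          ArithmeticFunction.cardFactors K.natAbs +
            ∑ i, ArithmeticFunction.cardFactors (A i * (m : ℤ) + 1).natAbs := by
        rw [hval, card_mul hK0 (prod_ne_zero_iff.2 hne), card_prod _ _ hne]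
      rw [hT]
      refine ⟨by positivity, ?_, ?_, ?_, ?_, ?_⟩
      · show ((v₀ + (Q : ℤ) * m : ℤ) : ℝ) ≤ X
        have hm1 : (1 : ℝ) ≤ m := by exact_mod_cast hm0
        have : (m : ℝ) * w ≤ X := (le_div_iff₀ hw0).1 hmx
        rw [hw] at this
        push_cast
        nlinarith
      · show v₀ + (Q : ℤ) * m ≡ r [ZMOD M]
        have : (Q : ℤ) * m ≡ 0 [ZMOD M] := (Int.modEq_zero_iff_dvd).2 (hMQ.mul_right _)
        simpa using hvr.add this
      · show c * ∏ i, (a i * (v₀ + Q * (m : ℤ)) + b i) ≠ 0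
        rw [hval]
        exact mul_ne_zero hK0 (prod_ne_zero_iff.2 hne)
      · show ArithmeticFunction.cardFactors (c * ∏ i, (a i * (v₀ + Q * (m : ℤ)) + b i)).natAbs ≤ _
        rw [hcf]
        apply Nat.add_le_add_left
        calc ∑ i, ArithmeticFunction.cardFactors (A i * (m : ℤ) + 1).natAbs ≤ ∑ _i : ι, R :=
              sum_le_sum fun i _ => (hmi i).2
          _ = Fintype.card ι * R := by rw [sum_const, card_univ, smul_eq_mul]
      · show liouville (c * ∏ i, (a i * (v₀ + Q * (m : ℤ)) + b i)) = s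
        unfold liouville
        rw [hcf, pow_add, hms]
    have := Set.ncard_le_ncard himg hTfin
    rw [Set.ncard_image_of_injective B hinj] at this
    exact_mod_cast this
  have hσ : ((-1 : ℤ)) ^ ArithmeticFunction.cardFactors K.natAbs = 1 ∨
      ((-1 : ℤ)) ^ ArithmeticFunction.cardFactors K.natAbs = -1 := neg_one_pow_eq_or ℤ _
  by_cases hsig : ((-1 : ℤ)) ^ ArithmeticFunction.cardFactors K.natAbs = s
  · refine step _ (fun m hm => ⟨hm.1, hm.2.1, fun i => ⟨(hm.2.2.1 i).1, (hm.2.2.1 i).2.1⟩, ?_⟩) hE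
    rw [hm.2.2.2.neg_one_pow, mul_one, hsig]
  · refine step _ (fun m hm => ⟨hm.1, hm.2.1, fun i => ⟨(hm.2.2.1 i).1, (hm.2.2.1 i).2.1⟩, ?_⟩) hO
    rw [hm.2.2.2.neg_one_pow]
    rcases hσ with h | h <;> rcases hs with h' | h' <;> simp_all

end Pool.Agent.Results.MP_d639b3_nt.SplitOddDegreeH28
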